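import Pool.Agent.V11223.UB.Time

/-!
# The minimum size of a load-bounded decomposition of a tree into unit bar visibility trees

The label of an edge, seen from one of its ends, tells whether its piece has vertices of degree `3`
on the far side and on the near side. A decomposition is valid if and only if at every vertex the
edges of a piece have compatible labels: at most three edges, and at a vertex of degree `3` at most
two directions lead to further vertices of degree `3`. The total number of groups of edges at the
vertices is the number of pieces plus the number of edges. So dynamic programming over the tree
finds the optimum: at a vertex, only the number of child edges with each of the four labels matters.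
-/

namespace Pool.Agent.Results.MP_3433f0_lc.MinPieces

open Pool.Agent.NPC Pool.Agent.V11223.UB

/-- There is an algorithm, computed by a Turing machine in polynomial time, that on input the list
of vertices `0, ..., n-1` and a list of the edges of a tree `G` outputs `(k, l)`, where `k` is the
least positive integer such that `G` decomposes into UBVTs with every vertex in at most `k` of them,
and `l` is the least number of pieces of such a decomposition for this `k`. -/
theorem result : ∃ f : List ℕ × List (ℕ × ℕ) → ℕ × ℕ,
    Nonempty (Turing.TM2ComputableInPolyTime (bits : List ℕ × List (ℕ × ℕ) → List Bool)
      (bits : ℕ × ℕ → List Bool) f) ∧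
    ∀ (n : ℕ) (G : SimpleGraph (Fin n)) (E : List (ℕ × ℕ)), G.IsTree →
      (∀ u v : Fin n, G.Adj u v ↔ (u.val, v.val) ∈ E ∨ (v.val, u.val) ∈ E) →
      ∀ k l : ℕ, f (List.range n, E) = (k, l) →
        IsLeast {k | 1 ≤ k ∧ ∃ P, IsDecomp G k P} k ∧
        IsLeast {l | ∃ P, IsDecomp G k P ∧ P.card = l} l := by
  refine ⟨algo, H532.Poly.toTM V11223UB.algo_poly, ?_⟩
  intro n G E hG hE k l hkl
  have h := algo_correct G hG hE
  rw [hkl] at h
  exact h

end Pool.Agent.Results.MP_3433f0_lc.MinPieces
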